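import Pool.Agent.Run7.h333.TS.DicB

/-!
# The dictionary between primes and points

Project TS (helper875), problem MP_48b749_nt, piece DIC, by helper333.
-/

set_option autoImplicit false
set_option linter.all false

open Polynomial IsDedekindDomain WithZero
open Pool.Agent.N874.PP Run7.h875.TS Run7.h225.TS Run7.h225.TS.Ovr
open scoped Classical

namespace Run7.h333.TS

section dic

variable {k K L O : Type} [Field k] [Field K] [Algebra k[X] K] [IsFractionRing k[X] K]
  [Field L] [Algebra K L] [Algebra k[X] L] [IsScalarTower k[X] K L] [CommRing O]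
  [IsDedekindDomain O] [Algebra O L] [IsFractionRing O L] [Algebra k[X] O]
  [IsScalarTower k[X] O L] [IsIntegralClosure O k[X] L] {a b : k[X]} {θ : L}

/-- If `Q` does not divide the norm, the valuations over `Q` are one. -/
theorem val_one' (h : IsCub K a b θ) {z : Fin 3 → k[X]} {Q : k[X]}
    (hQ : Irreducible Q) (hn : ¬ Q ∣ Pool.Agent.N862.PP.dn a b z) (𝔓 : HeightOneSpectrum O)
    (hov : Ov Q 𝔓) : 𝔓.valuation L (aeval θ (pq z)) = 1 := by
  have h1 : aeval θ (pq z) * aeval θ (pq ![(z 0 - a * z 2) * (z 0 - a * z 2) +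
      z 1 * (b * z 2 + a * z 1), -(z 1 * (z 0 - a * z 2) + z 2 * (b * z 2 + a * z 1)),
      z 1 * z 1 - z 2 * (z 0 - a * z 2)]) =
      algebraMap k[X] L (Pool.Agent.N862.PP.dn a b z) := by
    rw [aeval_pq, aeval_pq]
    unfold Pool.Agent.N862.PP.dn
    have hT := h.root
    simp only [map_add, map_sub, map_mul, map_neg, Matrix.cons_val_zero, Matrix.cons_val_one,
      Matrix.cons_val]
    set A := algebraMap k[X] L a
    set B := algebraMap k[X] L b
    set x := algebraMap k[X] L (z 0)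
    set y := algebraMap k[X] L (z 1)
    set w := algebraMap k[X] L (z 2)
    linear_combination (w * (y * y - w * (x - A * w)) * θ + y * (y * y - w * (x - A * w)) +
      w * (- (y * (x - A * w) + w * (B * w + A * y)))) * hT
  have h2 := congrArg (𝔓.valuation L) h1
  rw [map_mul, val_poly_eq hQ hov hn] at h2
  have h3 := val_pq_le h 𝔓 z
  refine le_antisymm h3 ?_
  rw [← h2]
  exact mul_le_of_le_one_right' (val_pq_le h 𝔓 _)

/-- The prime with `θ - c` not a unit at any of the zeros is unique. -/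
theorem uniq_rest (h : IsCub K a b θ) {F : Type} [Field F] [Fintype F] [Algebra k F] {t : F}
    (ht : (minpoly k t).natDegree = Module.finrank k F) (hd : ¬ minpoly k t ∣ dsc a b)
    (hcard : (rts a b t).card ≤ 1) {𝔓 𝔮 : HeightOneSpectrum O} (hov : Ov (minpoly k t) 𝔓)
    (hov' : Ov (minpoly k t) 𝔮)
    (h1 : ∀ c : k[X], RtM a b (minpoly k t) c → 𝔓.valuation L (θ - algebraMap k[X] L c) = 1)
    (h2 : ∀ c : k[X], RtM a b (minpoly k t) c → 𝔮.valuation L (θ - algebraMap k[X] L c) = 1) :
    𝔓 = 𝔮 := by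
  haveI : Module.Finite k F := Module.Finite.of_finite
  have hQ : Irreducible (minpoly k t) := minpoly.irreducible (IsIntegral.of_finite k t)
  have hsurj := surj_pt (k := k) ht
  rcases Nat.le_one_iff_eq_zero_or_eq_one.1 hcard with h0 | hone
  · obtain ⟨τ, hτ, htr⟩ := Pool.Agent.N862.PP.exists_theta (K := K) (O := O) h
    have hz : aeval τ (cubR a b) = 0 := by
      unfold cubR
      rw [map_add, map_add, map_pow, map_mul, aeval_X, aeval_C, aeval_C]
      exact htr
    have hirr : Irreducible ((cubR a b).map (aeval t : k[X] →ₐ[k] F).toRingHom) := by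
      rw [cubR_map]
      have hm := cubR_monic ((aeval t : k[X] →ₐ[k] F).toRingHom a)
        ((aeval t : k[X] →ₐ[k] F).toRingHom b)
      rw [hm.irreducible_iff_roots_eq_zero_of_degree_le_three
        (by rw [cubR_natDegree]; norm_num) (by rw [cubR_natDegree])]
      refine Multiset.eq_zero_of_forall_notMem fun x hx => ?_
      have h3 := (mem_roots hm.ne_zero).1 hx
      have h4 : x ∈ rts a b t := by
        rw [mem_rts]
        simpa [cubR] using h3
      rw [Finset.card_eq_zero] at h0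
      rw [h0] at h4
      simp at h4
    exact uniq_G h hQ hd (π := (aeval t : k[X] →ₐ[k] F).toRingHom) hsurj (fun c => ker_pt t c)
      hov hov' hτ (by rw [hz]; exact 𝔓.asIdeal.zero_mem) (by rw [hz]; exact 𝔮.asIdeal.zero_mem) hirr
  · obtain ⟨c, hc⟩ := Finset.card_eq_one.1 hone
    obtain ⟨c', rfl⟩ := hsurj c
    have hc' : RtM a b (minpoly k t) c' := by
      rw [← mem_rts', hc]
      simp
    refine uniq_q h hQ hd hov hov' hc' (fun d hd' => ?_) (h1 c' hc') (h2 c' hc')
    rw [← mem_rts', hc, Finset.mem_singleton] at hd'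
    rw [← ker_pt, map_sub, hd', sub_self]

end dic

theorem dic : S_DIC := by
  intro k K L O _ _ _ _ _ _ _ _ _ _ _ _ _ _ _ _ a b θ h6 h F _ _ _ t ht hd
  haveI : Module.Finite k F := Module.Finite.of_finite
  have hQ : Irreducible (minpoly k t) := minpoly.irreducible (IsIntegral.of_finite k t)
  have hsurj := surj_pt (k := k) ht
  refine ⟨?_, ?_, ?_⟩
  · intro h0 c hc
    rw [← mem_rts', Finset.card_eq_zero.1 h0] at hc
    simp at hc
  · intro h1
    obtain ⟨c, hc⟩ := Finset.card_eq_one.1 h1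
    obtain ⟨c', rfl⟩ := hsurj c
    refine ⟨c', ?_, fun d hd' => ?_⟩
    · rw [← mem_rts', hc]
      simp
    · rw [← mem_rts', hc, Finset.mem_singleton] at hd'
      rw [← ker_pt, map_sub, hd', sub_self]
  intro α z hα hn hev hz hne
  rw [crd_iff] at hz
  have hval : ∀ c : k[X], aeval t (z 0 + z 1 * c + z 2 * c ^ 2) = zev t (aeval t c) z := by
    intro c
    unfold zev
    simp
  -- the class at the prime with `θ ≡ c`
  have hcls : ∀ (𝔓 : HeightOneSpectrum O) (c : k[X]) (v : Fin 3 → k[X]), Ov (minpoly k t) 𝔓 →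
      𝔓.valuation L (θ - algebraMap k[X] L c) < 1 → zev t (aeval t c) v ≠ 0 →
      (Sq1 𝔓 (aeval θ (pq v)) ↔ chi (zev t (aeval t c) v) = 1) := by
    intro 𝔓 c v hov hc hv
    have hval' : aeval t (v 0 + v 1 * c + v 2 * c ^ 2) = zev t (aeval t c) v := by
      unfold zev
      simp
    have hv' : ¬ minpoly k t ∣ v 0 + v 1 * c + v 2 * c ^ 2 := by
      rw [← ker_pt, hval']
      exact hv
    rw [sq1_c h hQ hd hov hc hv', chi_eq_one hv]
    constructor
    · rintro ⟨s, hs⟩
      rw [← ker_pt, map_sub, hval', map_pow] at hs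
      exact ⟨aeval t s, by linear_combination hs⟩
    · rintro ⟨s, hs⟩
      obtain ⟨s', rfl⟩ := hsurj s
      refine ⟨s', ?_⟩
      rw [← ker_pt, map_sub, hval', map_pow, hs]
      ring
  have hroot : ∀ (𝔓 : HeightOneSpectrum O) (c : k[X]), Ov (minpoly k t) 𝔓 →
      𝔓.valuation L (θ - algebraMap k[X] L c) < 1 → aeval t c ∈ rts a b t := by
    intro 𝔓 c hov hc
    rw [mem_rts']
    exact root_of h hQ hov hc
  refine ⟨⟨?_, ?_⟩, ?_⟩
  · intro hT c hc
    obtain ⟨c', rfl⟩ := hsurj c
    obtain ⟨𝔓, hov, hlt⟩ := exists_P (O := O) h hQ hd ((mem_rts' c').1 hc)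
    rw [← hcls 𝔓 c' z hov hlt (hne _ hc), ← hz]
    exact hT 𝔓 hov
  · intro hchi 𝔮 hov
    -- if `θ ≡ c` the class is known
    have hcase : ∀ (𝔓 : HeightOneSpectrum O), Ov (minpoly k t) 𝔓 →
        (∃ c : k[X], 𝔓.valuation L (θ - algebraMap k[X] L c) < 1) → Sq1 𝔓 α := by
      rintro 𝔓 hov' ⟨c, hc⟩
      have hm := hroot 𝔓 c hov' hc
      rw [hz, hcls 𝔓 c z hov' hc (hne _ hm)]
      exact hchi _ hm
    by_contra hns
    have hno : ∀ c : k[X], 𝔮.valuation L (θ - algebraMap k[X] L c) = 1 := by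
      intro c
      by_contra hc
      exact hns (hcase 𝔮 hov ⟨c, lt_of_le_of_ne
        (Valuation.map_sub_le _ (val_theta_le h 𝔮) (val_poly_le 𝔮 c)) hc⟩)
    by_cases hcard : (rts a b t).card ≤ 1
    · obtain ⟨v, hv1, hv2⟩ := exists_gam h6 ht hd hcard
      have hv0 : ¬ minpoly k t ∣ Pool.Agent.N862.PP.dn a b v := by
        intro h0
        rw [← ker_pt] at h0
        rw [h0] at hv2
        exact hv2 IsSquare.zero
      have hns2 : ¬ ∃ s : k[X], minpoly k t ∣ Pool.Agent.N862.PP.dn a b v - s ^ 2 := by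
        rintro ⟨s, hs⟩
        rw [← ker_pt, map_sub, map_pow] at hs
        exact hv2 ⟨aeval t s, by linear_combination hs⟩
      have hc1 : ∀ (𝔓 : HeightOneSpectrum O), Ov (minpoly k t) 𝔓 → 𝔓 ≠ 𝔮 →
          ∃ c : k[X], 𝔓.valuation L (θ - algebraMap k[X] L c) < 1 := by
        intro 𝔓 hov' hne'
        by_contra hcon
        push Not at hcon
        apply hne'
        exact uniq_rest h ht hd hcard hov' hov (fun c _ => le_antisymm
          (Valuation.map_sub_le _ (val_theta_le h 𝔓) (val_poly_le 𝔓 c)) (hcon c))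
          (fun c _ => hno c)
      have hγ1 : ∀ (𝔓 : HeightOneSpectrum O), Ov (minpoly k t) 𝔓 → 𝔓 ≠ 𝔮 →
          Sq1 𝔓 (aeval θ (pq v)) := by
        intro 𝔓 hov' hne'
        obtain ⟨c, hc⟩ := hc1 𝔓 hov' hne'
        have hm := hroot 𝔓 c hov' hc
        have hone := hv1 _ hm
        rw [hcls 𝔓 c v hov' hc (by rw [hone]; exact one_ne_zero), hone, chi_eq_one one_ne_zero]
        exact IsSquare.one
      have hγ0 : aeval θ (pq v) ≠ 0 := by
        intro h0
        have := val_one' h hQ hv0 𝔮 hov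
        rw [h0, map_zero] at this
        exact zero_ne_one this
      have hγq : ¬ Sq1 𝔮 (aeval θ (pq v)) := by
        intro hs
        apply hns2
        refine norm_tr2 (x := (1 : L)) h hQ hd one_ne_zero (by simp) hv0 (O := O) ?_
        intro 𝔓 hov'
        rw [one_mul]
        by_cases he : 𝔓 = 𝔮
        · rw [he]
          exact hs
        · exact hγ1 𝔓 hov' he
      haveI : Module.Finite k[X] O := fin_O (K := K) (L := L) h (dsc_ne_zero hd)
      haveI := Pool.Agent.N539.PP.finite_residue hQ hov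
      apply hns2
      refine norm_tr2 (x := α) h hQ hd hα hn hv0 (O := O) ?_
      intro 𝔓 hov'
      by_cases he : 𝔓 = 𝔮
      · rw [he, Pool.Agent.N539.PP.sq1_mul_iff 𝔮 hα hγ0 (hev 𝔮 hov)
          ⟨1, by rw [val_one' h hQ hv0 𝔮 hov, map_one, one_pow]⟩]
        exact iff_of_false hns hγq
      · exact Pool.Agent.N539.PP.Sq1.mul 𝔓 (hcase 𝔓 hov' (hc1 𝔓 hov' he)) (hγ1 𝔓 hov' he)
    · push Not at hcard
      obtain ⟨c₁, hc₁, c₂, hc₂, hne'⟩ := Finset.one_lt_card.1 hcard
      obtain ⟨d₁, rfl⟩ := hsurj c₁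
      obtain ⟨d₂, rfl⟩ := hsurj c₂
      obtain ⟨hA, hB⟩ := two_rts (mem_rts.1 hc₁) (mem_rts.1 hc₂) hne'
      have hdv : minpoly k t ∣ a + (d₁ ^ 2 + d₁ * d₂ + d₂ ^ 2) := by
        rw [← ker_pt]
        simp only [map_add, map_mul, map_pow]
        linear_combination hA
      have hdb : minpoly k t ∣ b - d₁ * d₂ * (d₁ + d₂) := by
        rw [← ker_pt]
        simp only [map_add, map_mul, map_sub]
        linear_combination hB
      have hA' := (val_poly_lt (L := L) hQ hov _).2 hdv
      have hB' := (val_poly_lt (L := L) hQ hov _).2 hdb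
      have e : (θ - algebraMap k[X] L d₁) * (θ - algebraMap k[X] L d₂) *
          (θ - algebraMap k[X] L (- d₁ - d₂)) =
          - (algebraMap k[X] L (a + (d₁ ^ 2 + d₁ * d₂ + d₂ ^ 2)) * θ +
            algebraMap k[X] L (b - d₁ * d₂ * (d₁ + d₂))) := by
        have := h.root
        simp only [map_add, map_sub, map_mul, map_pow, map_neg]
        linear_combination this
      have h5 := congrArg (𝔮.valuation L) e
      rw [map_mul, map_mul, hno, hno, hno, one_mul, one_mul, Valuation.map_neg] at h5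
      have h6' : 𝔮.valuation L (algebraMap k[X] L (a + (d₁ ^ 2 + d₁ * d₂ + d₂ ^ 2)) * θ +
            algebraMap k[X] L (b - d₁ * d₂ * (d₁ + d₂))) < 1 := by
        refine Valuation.map_add_lt _ ?_ hB'
        rw [map_mul]
        exact lt_of_le_of_lt (mul_le_of_le_one_right' (val_theta_le h 𝔮)) hA'
      rw [← h5] at h6'
      exact lt_irrefl _ h6'
  · intro h3
    obtain ⟨c₁, c₂, c₃, h12, h13, h23, hr⟩ := Finset.card_eq_three.1 h3
    have m1 : c₁ ∈ rts a b t := by rw [hr]; simp
    have m2 : c₂ ∈ rts a b t := by rw [hr]; simp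
    have m3 : c₃ ∈ rts a b t := by rw [hr]; simp
    obtain ⟨hA, hB⟩ := two_rts (mem_rts.1 m1) (mem_rts.1 m2) h12
    have hc3 : c₃ = - c₁ - c₂ := by
      have e := mem_rts.1 m3
      rw [hA, hB] at e
      have e2 : (c₃ - c₁) * ((c₃ - c₂) * (c₃ + c₁ + c₂)) = 0 := by linear_combination e
      rcases mul_eq_zero.1 e2 with e3 | e3
      · exact absurd (sub_eq_zero.1 e3).symm h13
      rcases mul_eq_zero.1 e3 with e4 | e4
      · exact absurd (sub_eq_zero.1 e4).symm h23
      · linear_combination e4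
    have hprod : ∏ c ∈ rts a b t, chi (zev t c z) =
        chi (zev t c₁ z) * chi (zev t c₂ z) * chi (zev t c₃ z) := by
      rw [hr, Finset.prod_insert (by simp [h12, h13]), Finset.prod_insert (by simp [h23]),
        Finset.prod_singleton, mul_assoc]
    have hmul : ∀ x y : F, chi (x * y) = chi x * chi y := by
      intro x y
      unfold chi
      rw [map_mul]
      push_cast
      rfl
    have hdn : aeval t (Pool.Agent.N862.PP.dn a b z) = zev t c₁ z * zev t c₂ z * zev t c₃ z := by
      rw [dn_split hA hB, hc3]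
    have hdn0 : zev t c₁ z * zev t c₂ z * zev t c₃ z ≠ 0 :=
      mul_ne_zero (mul_ne_zero (hne _ m1) (hne _ m2)) (hne _ m3)
    rw [hprod, ← hmul, ← hmul, chi_eq_one hdn0, ← hdn]
    have hN := Pool.Agent.N862.PP.norm_crd h ((crd_iff _ _).2 hz)
    obtain ⟨ρ, hρ⟩ := hn
    have h7 : algebraMap k[X] K (Pool.Agent.N862.PP.dn a b z) = ρ ^ 2 := by rw [← hN, hρ, sq]
    obtain ⟨y, hy⟩ := IsIntegrallyClosed.exists_algebraMap_eq_of_isIntegral_pow (R := k[X])
      (x := ρ) (n := 2) (by norm_num) (by rw [← h7]; exact isIntegral_algebraMap)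
    rw [← hy, ← map_pow] at h7
    rw [IsFractionRing.injective k[X] K h7, map_pow, sq]
    exact ⟨_, rfl⟩

end Run7.h333.TS
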