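import Pool.Agent.Run7.h225.TS.Ovr3

/-!
# The dictionary between primes and points, I

Project TS (helper875), problem MP_48b749_nt, piece DIC, by helper333.
-/

set_option autoImplicit false
set_option linter.all false

open Polynomial IsDedekindDomain WithZero
open Pool.Agent.N874.PP Run7.h875.TS Run7.h225.TS Run7.h225.TS.Ovr
open scoped Classical

namespace Run7.h333.TS

section dic

variable {k K L O : Type} [Field k] [Field K] [Algebra k[X] K] [IsFractionRing k[X] K]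
  [Field L] [Algebra K L] [Algebra k[X] L] [IsScalarTower k[X] K L] [CommRing O]
  [IsDedekindDomain O] [Algebra O L] [IsFractionRing O L] [Algebra k[X] O]
  [IsScalarTower k[X] O L] [IsIntegralClosure O k[X] L] {a b : k[X]} {θ : L}

/-- The class at the prime with `θ ≡ c`. -/
theorem sq1_c (h : IsCub K a b θ) {Q : k[X]} (hQ : Irreducible Q) (hd : ¬ Q ∣ dsc a b)
    {𝔓 : HeightOneSpectrum O} (hov : Ov Q 𝔓) {c : k[X]}
    (hc : 𝔓.valuation L (θ - algebraMap k[X] L c) < 1) {z : Fin 3 → k[X]}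
    (hz : ¬ Q ∣ z 0 + z 1 * c + z 2 * c ^ 2) :
    Sq1 𝔓 (aeval θ (pq z)) ↔ ∃ s : k[X], Q ∣ z 0 + z 1 * c + z 2 * c ^ 2 - s ^ 2 := by
  have h1 := val_pq_sub h hc z
  have h2 : 𝔓.valuation L (aeval θ (pq z)) = 1 :=
    le_antisymm (val_pq_le h 𝔓 z) (not_lt.1 fun h0 => hz ((val_lt_iff_c h hQ hov hc z).1 h0))
  constructor
  · rintro ⟨s, hs⟩
    have hs2 := Pool.Agent.N539.PP.sq1_val 𝔓 hs
    rw [h2] at hs hs2
    have hs1 : 𝔓.valuation L s ≤ 1 := by
      by_contra hcon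
      push Not at hcon
      have : (1 : WithZero (Multiplicative ℤ)) < 𝔓.valuation L s ^ 2 :=
        one_lt_pow₀ hcon (by norm_num)
      rw [hs2] at this
      exact lt_irrefl _ this
    obtain ⟨r, hr⟩ := resid_c h hQ hd hov hc hs1
    refine ⟨r, ?_⟩
    rw [← val_poly_lt (L := L) hQ hov, map_sub, map_pow]
    have e : algebraMap k[X] L (z 0 + z 1 * c + z 2 * c ^ 2) - algebraMap k[X] L r ^ 2 =
        ((aeval θ (pq z) - s ^ 2) + (s - algebraMap k[X] L r) * (s + algebraMap k[X] L r)) -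
        (aeval θ (pq z) - algebraMap k[X] L (z 0 + z 1 * c + z 2 * c ^ 2)) := by ring
    rw [e]
    refine Valuation.map_sub_lt _ (Valuation.map_add_lt _ hs ?_) h1
    rw [map_mul]
    exact lt_of_le_of_lt (mul_le_of_le_one_right' (Valuation.map_add_le _ hs1 (val_poly_le 𝔓 _))) hr
  · rintro ⟨s, hs⟩
    refine ⟨algebraMap k[X] L s, ?_⟩
    rw [h2]
    have h3 := (val_poly_lt (L := L) hQ hov _).2 hs
    rw [map_sub, map_pow] at h3
    have e : aeval θ (pq z) - algebraMap k[X] L s ^ 2 =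
        (aeval θ (pq z) - algebraMap k[X] L (z 0 + z 1 * c + z 2 * c ^ 2)) +
        (algebraMap k[X] L (z 0 + z 1 * c + z 2 * c ^ 2) - algebraMap k[X] L s ^ 2) := by ring
    rw [e]
    exact Valuation.map_add_lt _ h1 h3

/-- Existence of the prime with `θ ≡ c`. -/
theorem exists_P (h : IsCub K a b θ) {Q : k[X]} (hQ : Irreducible Q) (hd : ¬ Q ∣ dsc a b)
    {c : k[X]} (hc : RtM a b Q c) :
    ∃ 𝔓 : HeightOneSpectrum O, Ov Q 𝔓 ∧ 𝔓.valuation L (θ - algebraMap k[X] L c) < 1 := by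
  obtain ⟨t, ht, -⟩ := Pool.Agent.N862.PP.exists_theta (K := K) (O := O) h
  have hinjO := Pool.Agent.N862.PP.algO_inj (K := K) (L := L) (O := O) (k := k)
  have hne : Ideal.span {algebraMap k[X] O Q, t - algebraMap k[X] O c} ≠ ⊤ := by
    intro htop
    rw [Ideal.eq_top_iff_one, Ideal.mem_span_pair] at htop
    obtain ⟨x, y, hxy⟩ := htop
    obtain ⟨v, hv⟩ := dsc_crd h (Pool.Agent.N862.PP.isInt (L := L) x)
    obtain ⟨w, hw⟩ := dsc_crd h (Pool.Agent.N862.PP.isInt (L := L) y)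
    rw [crd_iff] at hv hw
    have h1 := congrArg (algebraMap O L) hxy
    rw [map_add, map_mul, map_mul, map_one, map_sub, ht, ← IsScalarTower.algebraMap_apply k[X] O L,
      ← IsScalarTower.algebraMap_apply k[X] O L] at h1
    have h2 : aeval θ (pq v * C Q + pq w * (X - C c) - C (dsc a b)) = 0 := by
      rw [map_sub, map_add, map_mul, map_mul, map_sub, aeval_C, aeval_C, aeval_C, aeval_X, ← hv, ← hw]
      linear_combination algebraMap k[X] L (dsc a b) * h1
    obtain ⟨u, hu⟩ := cubR_dvd h h2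
    have h3 := congrArg (Polynomial.eval c) hu
    simp only [eval_sub, eval_add, eval_mul, eval_C, eval_X, sub_self, mul_zero, add_zero, cubR,
      eval_pow] at h3
    apply hd
    have h4 : dsc a b = (pq v).eval c * Q - (c ^ 3 + a * c + b) * u.eval c := by
      linear_combination - h3
    rw [h4]
    exact dvd_sub (Dvd.intro_left _ rfl) (Dvd.dvd.mul_right hc _)
  obtain ⟨M, hM, hle⟩ := Ideal.exists_le_maximal _ hne
  have hQM : algebraMap k[X] O Q ∈ M := hle (Ideal.subset_span (by simp))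
  have hM0 : M ≠ ⊥ := by
    rintro rfl
    have : algebraMap k[X] O Q = 0 := by simpa using hQM
    exact hQ.ne_zero (hinjO (by rw [this, map_zero]))
  refine ⟨⟨M, hM.isPrime, hM0⟩, hQM, ?_⟩
  have hm : t - algebraMap k[X] O c ∈ M := hle (Ideal.subset_span (by simp))
  have h1 := ((⟨M, hM.isPrime, hM0⟩ : HeightOneSpectrum O).valuation_lt_one_iff_mem (K := L) _).2 hm
  have h2 : algebraMap O L (t - algebraMap k[X] O c) = θ - algebraMap k[X] L c := by
    rw [map_sub, ht, ← IsScalarTower.algebraMap_apply k[X] O L]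
  rw [← h2]
  exact h1

/-- The norm of an element which is a square at the primes over `Q`. -/
theorem norm_tr (h : IsCub K a b θ) {Q : k[X]} (hQ : Irreducible Q) (hd : ¬ Q ∣ dsc a b)
    {x : L} (hx : x ≠ 0) (ht : Tr O Q x) :
    ∃ (r : K) (n₁ n₂ : k[X]), r ≠ 0 ∧ ¬ Q ∣ n₁ ∧ Q ∣ n₁ - n₂ ∧
      algebraMap k[X] K n₁ * Algebra.norm K x = r ^ 2 * algebraMap k[X] K n₂ := by
  haveI : Module.Finite K L := Module.Finite.of_basis h.basis
  have hex : ∀ 𝔮 : HeightOneSpectrum O, ∃ s : L, Ov Q 𝔮 →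
      s ≠ 0 ∧ 𝔮.valuation L (x - s ^ 2) < 𝔮.valuation L x := by
    intro 𝔮
    by_cases ho : Ov Q 𝔮
    · obtain ⟨s, hs⟩ := ht 𝔮 ho
      refine ⟨s, fun _ => ⟨?_, hs⟩⟩
      rintro rfl
      rw [zero_pow two_ne_zero, sub_zero] at hs
      exact lt_irrefl _ hs
    · exact ⟨1, fun h' => absurd h' ho⟩
  choose s hs using hex
  obtain ⟨β, hβ⟩ := approx (fin_ov (K := K) (L := L) (O := O) hQ.ne_zero) s
    fun 𝔮 h𝔮 => (hs 𝔮 h𝔮).1
  by_cases hβ0 : β = 0
  · -- no primes over `Q`: impossible, but the statement is easy to get around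
    exfalso
    have hno : ∀ 𝔮 : HeightOneSpectrum O, ¬ Ov Q 𝔮 := by
      intro 𝔮 h𝔮
      have h1 := ap_val (hβ 𝔮 h𝔮)
      rw [hβ0, map_zero] at h1
      exact (Valuation.ne_zero_iff _).2 (hs 𝔮 h𝔮).1 h1.symm
    obtain ⟨m, v, hm, hv⟩ := loc_max (O := O) h hQ hd (x := (1 : L)) fun 𝔮 h𝔮 => absurd h𝔮 (hno 𝔮)
    have h2 : Crd θ ![m, 0, 0] (algebraMap k[X] L m * 1) := by
      rw [crd_iff, aeval_pq]
      simp
    have h3 : Crd θ (fun i => Q * v i) (algebraMap k[X] L m * 1) := by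
      rw [hv, crd_iff, aeval_pq, aeval_pq]
      simp only [map_mul]
      ring
    have h4 := Pool.Agent.N862.PP.crd_uniq h h2 h3
    apply hm
    have h5 := congrFun h4 0
    simp only [Matrix.cons_val_zero] at h5
    exact ⟨_, h5⟩
  have hsm : ∀ 𝔮 : HeightOneSpectrum O, Ov Q 𝔮 → 𝔮.valuation L (x / β ^ 2 - 1) < 1 :=
    fun 𝔮 h𝔮 => ap_div (hs 𝔮 h𝔮).2 (hβ 𝔮 h𝔮)
  obtain ⟨m, w, hm, hw⟩ := loc_max (O := O) h hQ hd hsm
  have hcr : Crd θ ![m + Q * w 0, Q * w 1, Q * w 2] (algebraMap k[X] L m * (x / β ^ 2)) := by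
    rw [crd_iff, aeval_pq]
    have h2 := aeval_pq (θ := θ) w
    simp only [Matrix.cons_val_zero, Matrix.cons_val_one, Matrix.cons_val, map_add, map_mul]
    linear_combination hw + algebraMap k[X] L Q * h2
  have hN1 := Pool.Agent.N862.PP.norm_crd h hcr
  have hN2 : Algebra.norm K (algebraMap k[X] L m) = algebraMap k[X] K m ^ 3 := by
    rw [IsScalarTower.algebraMap_apply k[X] K L, Algebra.norm_algebraMap, h.rank]
  have hNβ : Algebra.norm K β ≠ 0 := Algebra.norm_ne_zero_iff.2 hβ0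
  refine ⟨Algebra.norm K β, m ^ 3, Pool.Agent.N862.PP.dn a b ![m + Q * w 0, Q * w 1, Q * w 2], hNβ,
    fun h0 => hm (hQ.prime.dvd_of_dvd_pow h0), ?_, ?_⟩
  · obtain ⟨κ, _, π, hπs, hπ⟩ := exists_res hQ
    have hQ' : π Q = 0 := (hπ _).2 dvd_rfl
    rw [← hπ, map_sub, dn_map]
    simp only [Matrix.cons_val_zero, Matrix.cons_val_one, Matrix.cons_val, map_add, map_mul, hQ',
      zero_mul, add_zero, map_pow]
    ring
  · have hx2 : x = x / β ^ 2 * β ^ 2 := by field_simp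
    have hN3 := congrArg (Algebra.norm K) hx2
    rw [map_mul, map_pow] at hN3
    rw [← hN1, map_mul, hN2, hN3, map_pow]
    ring

/-- If the norm of `x` is a square and `x γ` is a square at the primes over `Q`, then the norm of
`γ` is a square modulo `Q`. -/
theorem norm_tr2 (h : IsCub K a b θ) {Q : k[X]} (hQ : Irreducible Q) (hd : ¬ Q ∣ dsc a b)
    {x : L} (hx : x ≠ 0) (hn : IsSquare (Algebra.norm K x)) {v : Fin 3 → k[X]}
    (hv : ¬ Q ∣ Pool.Agent.N862.PP.dn a b v) (ht : Tr O Q (x * aeval θ (pq v))) :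
    ∃ s : k[X], Q ∣ Pool.Agent.N862.PP.dn a b v - s ^ 2 := by
  haveI : Module.Finite K L := Module.Finite.of_basis h.basis
  have hN : Algebra.norm K (aeval θ (pq v)) = algebraMap k[X] K (Pool.Agent.N862.PP.dn a b v) :=
    Pool.Agent.N862.PP.norm_crd h ((crd_iff _ _).2 rfl)
  have hγ : aeval θ (pq v) ≠ 0 := by
    intro h0
    rw [h0, Algebra.norm_zero] at hN
    apply hv
    have := IsFractionRing.injective k[X] K (hN.symm.trans (map_zero _).symm)
    rw [this]
    exact dvd_zero _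
  obtain ⟨r, n₁, n₂, hr, hn1, hn12, he⟩ := norm_tr h hQ hd (mul_ne_zero hx hγ) ht
  obtain ⟨ρ, hρ⟩ := hn
  have hNx : Algebra.norm K x ≠ 0 := Algebra.norm_ne_zero_iff.2 hx
  have hρ0 : ρ ≠ 0 := by
    rintro rfl
    rw [mul_zero] at hρ
    exact hNx hρ
  rw [map_mul, hN, hρ] at he
  have h1 : algebraMap k[X] K (n₁ * Pool.Agent.N862.PP.dn a b v * n₂) =
      (r * algebraMap k[X] K n₂ / ρ) ^ 2 := by
    rw [div_pow, eq_div_iff (pow_ne_zero 2 hρ0)]
    simp only [map_mul]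
    linear_combination algebraMap k[X] K n₂ * he
  obtain ⟨y, hy⟩ := IsIntegrallyClosed.exists_algebraMap_eq_of_isIntegral_pow (R := k[X])
    (x := r * algebraMap k[X] K n₂ / ρ) (n := 2) (by norm_num)
    (by rw [← h1]; exact isIntegral_algebraMap)
  rw [← hy, ← map_pow] at h1
  have h2 := IsFractionRing.injective k[X] K h1
  obtain ⟨m, m1, hm⟩ := exists_inv hQ hn1
  refine ⟨m * y, ?_⟩
  obtain ⟨κ, _, π, hπs, hπ⟩ := exists_res hQ
  have hQ' : π Q = 0 := (hπ _).2 dvd_rfl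
  have p1 := congrArg π h2
  have p2 := congrArg π hm
  have p3 := (hπ _).2 hn12
  rw [← hπ, map_sub, map_pow, map_mul]
  simp only [map_mul, map_add, map_pow, map_sub, map_one, hQ', zero_mul, add_zero] at p1 p2 p3
  have p4 : π n₂ = π n₁ := by linear_combination - p3
  rw [p4] at p1
  have p5 : (π m * π n₁) ^ 2 = 1 := by rw [p2, one_pow]
  linear_combination π m ^ 2 * p1 - π (Pool.Agent.N862.PP.dn a b v) * p5

end dic

end Run7.h333.TS
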