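import Pool.Agent.Run7.h333.TS.DicA
import Pool.Agent.Run7.h875.TS.StmA

/-!
# The dictionary between primes and points, II

Project TS (helper875), problem MP_48b749_nt, piece DIC, by helper333.
-/

set_option autoImplicit false
set_option linter.all false

open Polynomial IsDedekindDomain WithZero
open Pool.Agent.N874.PP Run7.h875.TS Run7.h225.TS Run7.h225.TS.Ovr
open scoped Classical

namespace Run7.h333.TS

section pt

variable {k F : Type} [Field k] [Field F] [Fintype F] [Algebra k F]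

theorem surj_pt {t : F} (ht : (minpoly k t).natDegree = Module.finrank k F) :
    Function.Surjective (aeval t : k[X] →ₐ[k] F) := by
  haveI : Module.Finite k F := Module.Finite.of_finite
  have h1 := (Field.primitive_element_iff_minpoly_natDegree_eq k t).2 ht
  intro x
  have h2 : x ∈ IntermediateField.adjoin k {t} := by rw [h1]; trivial
  rw [← IntermediateField.mem_toSubalgebra,
    IntermediateField.adjoin_simple_toSubalgebra_of_isAlgebraic
      (IsIntegral.of_finite k t).isAlgebraic, Algebra.adjoin_singleton_eq_range_aeval] at h2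
  exact h2

theorem ker_pt (t : F) (c : k[X]) : aeval t c = 0 ↔ minpoly k t ∣ c :=
  (minpoly.dvd_iff).symm

theorem mem_rts {a b : k[X]} {t c : F} :
    c ∈ rts a b t ↔ c ^ 3 + aeval t a * c + aeval t b = 0 := by
  unfold rts
  simp

theorem mem_rts' {a b : k[X]} {t : F} (c : k[X]) :
    aeval t c ∈ rts a b t ↔ RtM a b (minpoly k t) c := by
  rw [mem_rts]
  unfold RtM
  rw [← ker_pt]
  simp

theorem chi_eq_one {x : F} (hx : x ≠ 0) : chi x = 1 ↔ IsSquare x := by
  unfold chi
  rw [← quadraticChar_one_iff_isSquare hx]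
  exact_mod_cast Iff.rfl

/-- Two different zeros. -/
theorem two_rts {A B c₁ c₂ : F} (h1 : c₁ ^ 3 + A * c₁ + B = 0) (h2 : c₂ ^ 3 + A * c₂ + B = 0)
    (hne : c₁ ≠ c₂) : A = -(c₁ ^ 2 + c₁ * c₂ + c₂ ^ 2) ∧ B = c₁ * c₂ * (c₁ + c₂) := by
  have h4 : (c₂ - c₁) * (c₁ ^ 2 + c₁ * c₂ + c₂ ^ 2 + A) = 0 := by
    linear_combination h2 - h1
  have h5 : c₁ ^ 2 + c₁ * c₂ + c₂ ^ 2 + A = 0 :=
    (mul_eq_zero.1 h4).resolve_left (sub_ne_zero.2 (Ne.symm hne))
  have h6 : A = -(c₁ ^ 2 + c₁ * c₂ + c₂ ^ 2) := by linear_combination h5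
  refine ⟨h6, ?_⟩
  rw [h6] at h1
  linear_combination h1

/-- The norm in the split case. -/
theorem dn_split {a b : k[X]} {t c₁ c₂ : F} (hA : aeval t a = -(c₁ ^ 2 + c₁ * c₂ + c₂ ^ 2))
    (hB : aeval t b = c₁ * c₂ * (c₁ + c₂)) (z : Fin 3 → k[X]) :
    aeval t (Pool.Agent.N862.PP.dn a b z) = zev t c₁ z * zev t c₂ z * zev t (-c₁ - c₂) z := by
  unfold Pool.Agent.N862.PP.dn zev
  simp only [map_sub, map_mul, map_add, map_neg, hA, hB]
  ring

/-- The norm if there is a zero. -/
theorem dn_one {a b : k[X]} {t c : F} (hc : c ^ 3 + aeval t a * c + aeval t b = 0)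
    (z : Fin 3 → k[X]) :
    aeval t (Pool.Agent.N862.PP.dn a b z) = zev t c z *
      ((aeval t (z 0) - aeval t (z 2) * (c ^ 2 + aeval t a)) ^ 2 -
        c * (aeval t (z 0) - aeval t (z 2) * (c ^ 2 + aeval t a)) *
          (aeval t (z 1) - c * aeval t (z 2)) +
        (c ^ 2 + aeval t a) * (aeval t (z 1) - c * aeval t (z 2)) ^ 2) := by
  have hB : aeval t b = -(c ^ 3 + aeval t a * c) := by linear_combination hc
  unfold Pool.Agent.N862.PP.dn zev
  simp only [map_sub, map_mul, map_add, map_neg, hB]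
  ring

/-- The twisting element. -/
theorem exists_gam (h6 : (6 : k) ≠ 0) {a b : k[X]} {t : F}
    (ht : (minpoly k t).natDegree = Module.finrank k F) (hd : ¬ minpoly k t ∣ dsc a b)
    (hcard : (rts a b t).card ≤ 1) :
    ∃ v : Fin 3 → k[X], (∀ c ∈ rts a b t, zev t c v = 1) ∧
      ¬ IsSquare (aeval t (Pool.Agent.N862.PP.dn a b v)) := by
  have h6F : (6 : F) ≠ 0 := by
    intro h0
    apply h6
    apply (algebraMap k F).injective
    rw [map_ofNat, map_zero]
    exact h0
  have h2F : (2 : F) ≠ 0 := by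
    intro h0
    apply h6F
    rw [show (6 : F) = 2 * 3 by norm_num, h0, zero_mul]
  have h2c : ringChar F ≠ 2 := by
    intro h0
    apply h2F
    have := CharP.cast_eq_zero F (ringChar F)
    rw [h0] at this
    exact_mod_cast this
  obtain ⟨n, hn⟩ := FiniteField.exists_nonsquare (F := F) h2c
  have hn0 : n ≠ 0 := by
    rintro rfl
    exact hn IsSquare.zero
  have hsurj := surj_pt (k := k) ht
  rcases Nat.le_one_iff_eq_zero_or_eq_one.1 hcard with h0 | h1
  · obtain ⟨r, hr⟩ := hsurj n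
    refine ⟨![r, 0, 0], ?_, ?_⟩
    · rw [Finset.card_eq_zero] at h0
      rw [h0]
      simp
    · have e : aeval t (Pool.Agent.N862.PP.dn a b ![r, 0, 0]) = n ^ 3 := by
        unfold Pool.Agent.N862.PP.dn
        simp [hr]
        ring
      rw [e]
      rintro ⟨s, hs⟩
      apply hn
      refine ⟨s / n, ?_⟩
      field_simp
      linear_combination hs
  · obtain ⟨c, hc⟩ := Finset.card_eq_one.1 h1
    have hcr : c ^ 3 + aeval t a * c + aeval t b = 0 := by
      rw [← mem_rts, hc]
      simp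
    set A := aeval t a with hA
    have hB : aeval t b = -(c ^ 3 + A * c) := by linear_combination hcr
    have hdF : (3 * c ^ 2 + 4 * A) * (3 * c ^ 2 + A) ^ 2 ≠ 0 := by
      intro h0
      apply hd
      rw [← ker_pt]
      unfold dsc
      simp only [map_add, map_mul, map_pow, map_ofNat, hB, ← hA]
      linear_combination h0
    have hd1 : 3 * c ^ 2 + 4 * A ≠ 0 := left_ne_zero_of_mul hdF
    have hd2 : 3 * c ^ 2 + A ≠ 0 := fun h0 => hdF (by rw [h0]; ring)
    obtain ⟨u, w, huw⟩ := FiniteField.exists_root_sum_quadratic (R := F) (f := X ^ 2)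
      (g := C (3 * c ^ 2 + 4 * A) * X ^ 2 - C n) (degree_X_pow 2) (by
        compute_degree!) (by
        have := FiniteField.odd_card_of_char_ne_two h2c
        omega)
    simp only [eval_pow, eval_X, eval_sub, eval_mul, eval_C] at huw
    obtain ⟨g, hg⟩ : ∃ g : F, 2 * g = u + c * w := ⟨(u + c * w) / 2, mul_div_cancel₀ _ h2F⟩
    obtain ⟨e, he⟩ : ∃ e : F, (3 * c ^ 2 + A) * e = 1 - g - w * c :=
      ⟨(1 - g - w * c) / (3 * c ^ 2 + A), mul_div_cancel₀ _ hd2⟩
    obtain ⟨v0, hv0⟩ := hsurj (g + e * (c ^ 2 + A))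
    obtain ⟨v1, hv1⟩ := hsurj (w + e * c)
    obtain ⟨v2, hv2⟩ := hsurj e
    have hz : zev t c ![v0, v1, v2] = 1 := by
      unfold zev
      simp only [Matrix.cons_val_zero, Matrix.cons_val_one, Matrix.cons_val, hv0, hv1, hv2]
      linear_combination he
    refine ⟨![v0, v1, v2], ?_, ?_⟩
    · intro c' hc'
      rw [hc, Finset.mem_singleton] at hc'
      rw [hc', hz]
    · rw [dn_one hcr, hz, one_mul]
      simp only [Matrix.cons_val_zero, Matrix.cons_val_one, Matrix.cons_val, hv0, hv1, hv2, ← hA]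
      rintro ⟨s, hs⟩
      apply hn
      refine ⟨2 * s, ?_⟩
      linear_combination 4 * hs - huw - (u + 2 * g - c * w) * hg

end pt

end Run7.h333.TS
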