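import Pool.Agent.Run7.h333.TS.NsqA

/-!
# Nonsquares in the compositum: the cubic field

Project TS (helper875), problem MP_48b749_nt, piece NSQ, by helper333.
-/

set_option autoImplicit false
set_option linter.all false

open Polynomial
open Pool.Agent.N874.PP
open scoped Classical

namespace Run7.h333.TS

/-- The cubic polynomial. -/
noncomputable def cf {R : Type} [CommRing R] (a b : R) : R[X] := X ^ 3 + C a * X + C b

theorem cf_natDegree {R : Type} [CommRing R] [Nontrivial R] (a b : R) : (cf a b).natDegree = 3 := by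
  unfold cf
  compute_degree!

theorem cf_monic {R : Type} [CommRing R] [Nontrivial R] (a b : R) : (cf a b).Monic := by
  unfold cf
  monicity!

theorem cf_map {R S : Type} [CommRing R] [CommRing S] (f : R →+* S) (a b : R) :
    (cf a b).map f = cf (f a) (f b) := by
  simp [cf]

theorem cf_irr_iff {R : Type} [CommRing R] [IsDomain R] (a b : R) :
    Irreducible (cf a b) ↔ ∀ t : R, t ^ 3 + a * t + b ≠ 0 := by
  rw [(cf_monic a b).irreducible_iff_roots_eq_zero_of_degree_le_three
    (by rw [cf_natDegree]; norm_num) (by rw [cf_natDegree])]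
  rw [Multiset.eq_zero_iff_forall_notMem]
  refine forall_congr' fun t => ?_
  rw [mem_roots (cf_monic a b).ne_zero]
  simp [cf]

section ext

variable {k k' : Type} [Field k] [Fintype k] [Field k'] [Algebra k k']

/-- The cubic polynomial stays irreducible. -/
theorem irr_ex [IsAlgClosed k'] (h6 : (6 : k) ≠ 0) {a b p : k[X]} (hirr : Irreducible (cf a b))
    (hp : Irreducible p) (hpd : p ∣ dsc a b) (hpn : ¬ p ^ 2 ∣ dsc a b) :
    Irreducible (cf (a.map (algebraMap k k')) (b.map (algebraMap k k'))) := by
  have h2 : (2 : k) ≠ 0 := by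
    intro h
    apply h6
    rw [show (6 : k) = 2 * 3 by norm_num, h, zero_mul]
  rw [cf_irr_iff]
  intro t ht
  rw [cf_irr_iff] at hirr
  by_cases h : Fr k k' t = t
  · obtain ⟨T, rfl⟩ := Fr_fixed h
    apply hirr T
    apply Polynomial.map_injective _ (algebraMap k k').injective
    simpa using ht
  · set t' := Fr k k' t with ht'
    have h1 : t' ^ 3 + a.map (algebraMap k k') * t' + b.map (algebraMap k k') = 0 := by
      have := congrArg (Fr k k') ht
      simpa [Fr_map] using this
    have h3 : a.map (algebraMap k k') = - (t ^ 2 + t * t' + t' ^ 2) := by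
      have h4 : (t' - t) * (t ^ 2 + t * t' + t' ^ 2 + a.map (algebraMap k k')) = 0 := by
        linear_combination h1 - ht
      rcases mul_eq_zero.1 h4 with h5 | h5
      · exact absurd (sub_eq_zero.1 h5) h
      · linear_combination h5
    have h4 : b.map (algebraMap k k') = t * t' * (t + t') := by
      rw [h3] at ht
      linear_combination ht
    have h5 : (- dsc a b).map (algebraMap k k') = ((t - t') * (2 * t + t') * (2 * t' + t)) ^ 2 := by
      have : (- dsc a b).map (algebraMap k k') =
          - (4 * (a.map (algebraMap k k')) ^ 3 + 27 * (b.map (algebraMap k k')) ^ 2) := by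
        simp [dsc]
      rw [this, h3, h4]
      ring
    obtain ⟨c, Y, hc, hY⟩ := descent h2 h5
    apply hpn
    have h7 : p ∣ Y := by
      have : p ∣ C c * Y ^ 2 := by
        rw [← hY]
        exact (dvd_neg).2 hpd
      rcases hp.prime.dvd_or_dvd this with h8 | h8
      · exact absurd (isUnit_of_dvd_unit h8 (isUnit_C.2 hc.isUnit)) hp.not_isUnit
      · exact hp.prime.dvd_of_dvd_pow h8
    rw [← dvd_neg, hY]
    exact Dvd.dvd.mul_left (pow_dvd_pow_of_dvd h7 2) _

/-- Every polynomial divides one with coefficients in `k`. -/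
theorem exists_dvd_map [Algebra.IsAlgebraic k k'] {w : k'[X]} (hw : w ≠ 0) :
    ∃ W : k[X], W ≠ 0 ∧ w ∣ W.map (algebraMap k k') := by
  algebraize [(mapRingHom (algebraMap k k') : k[X] →+* k'[X])]
  have h1 : ∀ u : k'[X], IsIntegral k[X] u := by
    intro u
    induction u using Polynomial.induction_on' with
    | add p q hp hq => exact hp.add hq
    | monomial n c =>
      rw [← C_mul_X_pow_eq_monomial]
      refine IsIntegral.mul ?_ (IsIntegral.pow ?_ n)
      · obtain ⟨P, hP, hP'⟩ := Algebra.IsIntegral.isIntegral (R := k) c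
        refine ⟨P.map (C : k →+* k[X]), hP.map _, ?_⟩
        rw [eval₂_map]
        have : (algebraMap k[X] k'[X]).comp C = (C : k' →+* k'[X]).comp (algebraMap k k') := by
          refine RingHom.ext fun x => ?_
          change mapRingHom (algebraMap k k') (C x) = _
          simp
        rw [this, ← hom_eval₂, hP', map_zero]
      · have : (X : k'[X]) = algebraMap k[X] k'[X] X := by
          change X = mapRingHom (algebraMap k k') X
          simp
        rw [this]
        exact isIntegral_algebraMap
  have h2 := Ideal.comap_ne_bot_of_integral_mem (R := k[X]) hw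
    (Ideal.mem_span_singleton_self w) (h1 w)
  obtain ⟨W, hW, hW'⟩ := Submodule.exists_mem_ne_zero_of_ne_bot h2
  exact ⟨W, hW', Ideal.mem_span_singleton.1 hW⟩

/-- Descent of squares modulo the cubic polynomial. -/
theorem gsq_cub [IsAlgClosed k'] [Algebra.IsAlgebraic k k'] (h6 : (6 : k) ≠ 0) {a b p : k[X]}
    (hirr : Irreducible (cf a b))
    (hp : Irreducible p) (hpd : p ∣ dsc a b) (hpn : ¬ p ^ 2 ∣ dsc a b) {h : k[X][X]}
    (hG : Run7.h875.TS.GSq k' (cf a b) h) :
    ∃ (c : k) (W : k[X]) (U : k[X][X]), c ≠ 0 ∧ W ≠ 0 ∧ cf a b ∣ C (C c * W ^ 2) * h - U ^ 2 := by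
  have h2 : (2 : k) ≠ 0 := by
    intro h
    apply h6
    rw [show (6 : k) = 2 * 3 by norm_num, h, zero_mul]
  have hI := irr_ex (k' := k') h6 hirr hp hpd hpn
  obtain ⟨u, w, hw, hu⟩ := hG
  obtain ⟨W, hW, w', hw'⟩ := exists_dvd_map (k := k) hw
  -- common denominator with coefficients in `k`
  have hF : ex k k' (cf a b) = cf (a.map (algebraMap k k')) (b.map (algebraMap k k')) := by
    rw [ex, coe_mapRingHom, cf_map]
    rfl
  set F := cf (a.map (algebraMap k k')) (b.map (algebraMap k k')) with hFd
  have hFm : F.Monic := cf_monic _ _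
  set v := (C w' * u) %ₘ F with hv
  have hv1 : F ∣ ex k k' (C (W ^ 2) * h) - v ^ 2 := by
    have e1 : F ∣ C w' * u - v := ⟨(C w' * u) /ₘ F, by
      have := modByMonic_add_div (C w' * u) F
      rw [← hv] at this
      linear_combination - this⟩
    have e2 : F ∣ (C w' * u) ^ 2 - v ^ 2 := by
      rw [sq_sub_sq]
      exact e1.mul_left _
    have e3 : F ∣ C (w' ^ 2) * (C (w ^ 2) * ex k k' h - u ^ 2) := by
      rw [← hF]
      exact Dvd.dvd.mul_left hu _
    have e4 : ex k k' (C (W ^ 2) * h) = C (w' ^ 2) * (C (w ^ 2) * ex k k' h) := by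
      rw [map_mul, ← mul_assoc, ← C_mul]
      congr 1
      rw [ex, coe_mapRingHom, map_C]
      congr 1
      rw [map_pow, coe_mapRingHom, hw']
      ring
    have e5 : ex k k' (C (W ^ 2) * h) - v ^ 2 =
        C (w' ^ 2) * (C (w ^ 2) * ex k k' h - u ^ 2) + ((C w' * u) ^ 2 - v ^ 2) := by
      rw [e4, C_pow]
      ring
    rw [e5]
    exact dvd_add e3 e2
  have hv2 : F ∣ ex k k' (C (W ^ 2) * h) - Fr2 k k' v ^ 2 := by
    have := map_dvd (Fr2 k k') hv1
    rw [← hF, map_sub, Fr2_ex, Fr2_ex, map_pow (Fr2 k k'), hF] at this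
    exact this
  have hv3 : F ∣ (Fr2 k k' v + v) * (Fr2 k k' v - v) := by
    have := dvd_sub hv1 hv2
    have e : (Fr2 k k' v + v) * (Fr2 k k' v - v) =
      (ex k k' (C (W ^ 2) * h) - v ^ 2) - (ex k k' (C (W ^ 2) * h) - Fr2 k k' v ^ 2) := by ring
    rw [e]
    exact this
  have hd : v.degree < F.degree := degree_modByMonic_lt _ hFm
  have hd' : (Fr2 k k' v).degree < F.degree := by
    refine lt_of_le_of_lt ?_ hd
    rw [Fr2, coe_mapRingHom]
    exact degree_map_le
  rcases hI.prime.dvd_or_dvd hv3 with h3 | h3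
  · have h4 : Fr2 k k' v = - v := by
      have : Fr2 k k' v + v = 0 := by
        by_contra h0
        have := degree_le_of_dvd h3 h0
        exact absurd (lt_of_le_of_lt (degree_add_le _ _) (max_lt hd' hd)) (not_lt.2 this)
      linear_combination this
    obtain ⟨c, s, hc, hs, hs'⟩ := exists_sqrt (k := k) (k' := k') h2
    have h5 : Fr2 k k' (C (C s) * v) = C (C s) * v := by
      have e7 : Fr2 k k' (C (C s)) = - C (C s) := by
        rw [Fr2, coe_mapRingHom, map_C, Fr, coe_mapRingHom, map_C]
        have : (FiniteField.frobeniusAlgHom k k').toRingHom s = - s := hs'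
        rw [this]
        simp
      rw [map_mul]
      linear_combination e7 * Fr2 k k' v - C (C s) * h4
    obtain ⟨U, hU⟩ := Fr2_fixed h5
    refine ⟨c, W, U, hc, hW, ?_⟩
    rw [← map_dvd_map (mapRingHom (algebraMap k k'))
      (Polynomial.map_injective _ (algebraMap k k').injective) (cf_monic a b)]
    change ex k k' (cf a b) ∣ ex k k' _
    rw [map_sub, map_pow, hU, hF, C_mul, mul_assoc, map_mul (ex k k')]
    have e6 : ex k k' (C (C c)) = C (C s) ^ 2 := by
      rw [ex, coe_mapRingHom, map_C, coe_mapRingHom, map_C, ← hs]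
      simp
    rw [e6, mul_pow, ← mul_sub]
    exact hv1.mul_left _
  · have h4 : Fr2 k k' v = v := by
      have : Fr2 k k' v - v = 0 := by
        by_contra h0
        have := degree_le_of_dvd h3 h0
        exact absurd (lt_of_le_of_lt (degree_sub_le _ _) (max_lt hd' hd)) (not_lt.2 this)
      linear_combination this
    obtain ⟨U, hU⟩ := Fr2_fixed h4
    refine ⟨1, W, U, one_ne_zero, hW, ?_⟩
    rw [← map_dvd_map (mapRingHom (algebraMap k k'))
      (Polynomial.map_injective _ (algebraMap k k').injective) (cf_monic a b)]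
    change ex k k' (cf a b) ∣ ex k k' _
    rw [map_sub, map_pow, hU, hF, C_1, one_mul]
    exact hv1

end ext

end Run7.h333.TS
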