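import Pool.Agent.Run7.h875.TS.Mod
import Pool.Agent.Run7.h333.TS.NsqB

/-!
# The cubic polynomial stays irreducible over `k'(X)`

Project TS (helper875), problem MP_48b749_nt, piece M1, by helper333.
-/

set_option autoImplicit false
set_option linter.all false

open Polynomial
open Pool.Agent.N874.PP
open Run7.h875.TS
open scoped Classical

namespace Run7.h333.TS

theorem m1 : S_M1 := by
  intro k k' K' _ _ _ _ _ _ _ _ _ a b p h6 hirr hp hpd hpn
  haveI : Fintype k := Fintype.ofFinite k
  have h1 := irr_ex (k := k) (k' := k') h6 (a := a) (b := b) hirr hp hpd hpn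
  have h2 := ((cf_monic _ _).irreducible_iff_irreducible_map_fraction_map (K := K')).1 h1
  rw [cf_map] at h2
  exact h2

end Run7.h333.TS
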