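import Pool.Agent.Run7.h333.TS.NsqC

/-!
# Nonsquares stay nonsquares in the compositum

Project TS (helper875), problem MP_48b749_nt, piece NSQ, by helper333.
-/

set_option autoImplicit false
set_option linter.all false

open Polynomial
open Pool.Agent.N874.PP
open Run7.h875.TS
open scoped Classical

namespace Run7.h333.TS

theorem nsq : S_NSQ := by
  intro k ι _ _ _ a b p h6 hD J H D e hM
  haveI : Fintype k := Fintype.ofFinite k
  have h2 : (2 : k) ≠ 0 := by
    intro h
    apply h6
    rw [show (6 : k) = 2 * 3 by norm_num, h, zero_mul]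
  have hodd : Odd H.natDegree := by
    rw [hM.deg]
    exact Odd.pow (by decide)
  refine ⟨?_, ?_⟩
  · rintro A hA k' _ _ _ _ ⟨u, w, hw, hu⟩
    rw [map_C] at hu
    obtain ⟨y, hy⟩ := sq_of_odd (hM.pc.monic.map (mapRingHom (algebraMap k k')))
      (hM.pc.irr k') (by rw [hM.pc.monic.natDegree_map]; exact hodd) hw hu
    obtain ⟨c, Y, hc, hY⟩ := descent h2 hy
    exact hA c Y hY
  · rintro i hi K L _ _ _ _ _ _ _ θ hθ z α hα hns k' _ _ _ _ ⟨u, w, hw, hu⟩
    have hirr : Irreducible (cf (a i) (b i)) := hD.irr i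
    have hI := irr_ex (k' := k') h6 hirr (hD.pirr i) (hD.pd i) (hD.pnd i)
    have he := map_dvd (mapRingHom (mapRingHom (algebraMap k k'))) (hM.root i hi)
    have hDne : mapRingHom (algebraMap k k') D ≠ 0 := by
      rw [coe_mapRingHom, Polynomial.map_ne_zero_iff (algebraMap k k').injective]
      exact hM.pc.ne
    have he' : H.map (mapRingHom (algebraMap k k')) ∣ (e i).map (mapRingHom (algebraMap k k')) ^ 3 +
        C ((a i).map (algebraMap k k') * (mapRingHom (algebraMap k k') D) ^ 2) *
          (e i).map (mapRingHom (algebraMap k k')) +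
        C ((b i).map (algebraMap k k') * (mapRingHom (algebraMap k k') D) ^ 3) := by
      refine dvd_trans he (dvd_of_eq ?_)
      simp
    have hu' : H.map (mapRingHom (algebraMap k k')) ∣ C (w ^ 2) *
        (C ((mapRingHom (algebraMap k k') D) ^ 2 * (fun j => mapRingHom (algebraMap k k') (z j)) 0) +
          C (mapRingHom (algebraMap k k') D * (fun j => mapRingHom (algebraMap k k') (z j)) 1) *
            (e i).map (mapRingHom (algebraMap k k')) +
          C ((fun j => mapRingHom (algebraMap k k') (z j)) 2) *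
            (e i).map (mapRingHom (algebraMap k k')) ^ 2) - u ^ 2 := by
      refine hu.trans (dvd_of_eq ?_)
      simp
    obtain ⟨w', u', hw', hu''⟩ := gsq_tower (hM.pc.monic.map (mapRingHom (algebraMap k k')))
      (hM.pc.irr k') (by rw [hM.pc.monic.natDegree_map]; exact hodd) hI hDne he'
      (fun j => mapRingHom (algebraMap k k') (z j)) hw hu'
    obtain ⟨c, W, U, hc, hW, hdvd⟩ := gsq_cub (k' := k') (h := C (z 0) + C (z 1) * X + C (z 2) * X ^ 2)
      h6 hirr (hD.pirr i) (hD.pd i) (hD.pnd i) ⟨u', w', hw', by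
        rw [cf_map]
        refine dvd_trans (dvd_of_eq rfl) (hu''.trans (dvd_of_eq ?_))
        simp⟩
    have hev : (cf (a i) (b i)).eval₂ (algebraMap k[X] L) θ = 0 := by
      have := hθ.root
      simpa [cf] using this
    obtain ⟨V, hV⟩ := hdvd
    have h3 := congrArg (Polynomial.eval₂ (algebraMap k[X] L) θ) hV
    rw [eval₂_mul, hev, zero_mul, eval₂_sub, eval₂_mul, eval₂_pow, eval₂_C] at h3
    have h4 : (C (z 0) + C (z 1) * X + C (z 2) * X ^ 2 : k[X][X]).eval₂ (algebraMap k[X] L) θ = α := by
      rw [hα]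
      simp
    rw [h4, map_mul, map_pow] at h3
    have hinj : Function.Injective (algebraMap k[X] L) := by
      rw [IsScalarTower.algebraMap_eq k[X] K L]
      exact (algebraMap K L).injective.comp (IsFractionRing.injective k[X] K)
    have hcL : algebraMap k[X] L (C c) ≠ 0 := by
      rw [Ne, map_eq_zero_iff _ hinj]
      simpa using hc
    have hWL : algebraMap k[X] L W ≠ 0 := by
      rw [Ne, map_eq_zero_iff _ hinj]
      exact hW
    apply hns c⁻¹ (U.eval₂ (algebraMap k[X] L) θ / algebraMap k[X] L W)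
    have h5 : algebraMap k[X] L (C c⁻¹) * algebraMap k[X] L (C c) = 1 := by
      rw [← map_mul, ← C_mul, inv_mul_cancel₀ hc, C_1, map_one]
    rw [div_pow, mul_div_assoc', eq_div_iff (pow_ne_zero 2 hWL)]
    linear_combination (- α * algebraMap k[X] L W ^ 2) * h5 + algebraMap k[X] L (C c⁻¹) * h3

end Run7.h333.TS
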