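import Pool.Agent.Run7.h875.TS.StmA

/-!
# Nonsquares in the compositum: descent by the Frobenius map

Project TS (helper875), problem MP_48b749_nt, piece NSQ, by helper333.
-/

set_option autoImplicit false
set_option linter.all false

open Polynomial
open scoped Classical

namespace Run7.h333.TS

section frob

variable {k k' : Type} [Field k] [Fintype k] [Field k'] [Algebra k k']

theorem frob_fixed {x : k'} (h : FiniteField.frobeniusAlgHom k k' x = x) :
    ∃ c : k, algebraMap k k' c = x := by
  have h1 : x ^ Fintype.card k = x := h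
  have h2 : (X ^ Fintype.card k - X : k[X]).Splits := by
    rw [splits_iff_card_roots, FiniteField.roots_X_pow_card_sub_X,
      FiniteField.X_pow_card_sub_X_natDegree_eq _ Fintype.one_lt_card, ← Finset.card_def,
      Finset.card_univ]
  have h3 := h2.roots_map (algebraMap k k')
  rw [FiniteField.roots_X_pow_card_sub_X] at h3
  have h4 : x ∈ ((X ^ Fintype.card k - X : k[X]).map (algebraMap k k')).roots := by
    rw [mem_roots (by
      rw [Polynomial.map_ne_zero_iff (algebraMap k k').injective]
      exact FiniteField.X_pow_card_sub_X_ne_zero _ Fintype.one_lt_card)]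
    simp [h1]
  rw [h3, Multiset.mem_map] at h4
  obtain ⟨c, -, hc⟩ := h4
  exact ⟨c, hc⟩

/-- The Frobenius map on the coefficients of a polynomial. -/
noncomputable def Fr (k k' : Type) [Field k] [Fintype k] [Field k'] [Algebra k k'] :
    k'[X] →+* k'[X] := mapRingHom (FiniteField.frobeniusAlgHom k k').toRingHom

theorem Fr_map (A : k[X]) : Fr k k' (A.map (algebraMap k k')) = A.map (algebraMap k k') := by
  rw [Fr, coe_mapRingHom, Polynomial.map_map]
  congr 1
  exact (FiniteField.frobeniusAlgHom k k').comp_algebraMap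

theorem Fr_fixed {u : k'[X]} (h : Fr k k' u = u) : ∃ U : k[X], U.map (algebraMap k k') = u := by
  have h1 : ∀ n, ∃ c : k, algebraMap k k' c = u.coeff n := by
    intro n
    apply frob_fixed
    conv_rhs => rw [← h]
    rw [Fr, coe_mapRingHom, coeff_map]
    rfl
  have h2 : u ∈ Polynomial.lifts (algebraMap k k') := by
    rw [lifts_iff_coeff_lifts]
    intro n
    obtain ⟨c, hc⟩ := h1 n
    exact ⟨c, hc⟩
  exact (mem_lifts _).1 h2

theorem Fr_injective : Function.Injective (Fr k k') :=
  Polynomial.map_injective _ (FiniteField.frobeniusAlgHom k k').toRingHom.injective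

/-- The Frobenius map on polynomials in two variables. -/
noncomputable def Fr2 (k k' : Type) [Field k] [Fintype k] [Field k'] [Algebra k k'] :
    k'[X][X] →+* k'[X][X] := mapRingHom (Fr k k')

/-- Extension of constants. -/
noncomputable def ex (k k' : Type) [Field k] [Field k'] [Algebra k k'] :
    k[X][X] →+* k'[X][X] := mapRingHom (mapRingHom (algebraMap k k'))

theorem ex_injective : Function.Injective (ex k k') :=
  Polynomial.map_injective _ (Polynomial.map_injective _ (algebraMap k k').injective)

theorem Fr2_ex (A : k[X][X]) : Fr2 k k' (ex k k' A) = ex k k' A := by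
  rw [Fr2, ex, coe_mapRingHom, coe_mapRingHom, Polynomial.map_map]
  congr 1
  exact RingHom.ext fun B => Fr_map B

theorem Fr2_fixed {u : k'[X][X]} (h : Fr2 k k' u = u) : ∃ U : k[X][X], ex k k' U = u := by
  have h1 : ∀ n, ∃ c : k[X], mapRingHom (algebraMap k k') c = u.coeff n := by
    intro n
    apply Fr_fixed
    conv_rhs => rw [← h]
    rw [Fr2, coe_mapRingHom, coeff_map]
  have h2 : u ∈ Polynomial.lifts (mapRingHom (algebraMap k k')) := by
    rw [lifts_iff_coeff_lifts]
    intro n
    obtain ⟨c, hc⟩ := h1 n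
    exact ⟨c, hc⟩
  exact (mem_lifts _).1 h2

/-- A square root of a nonsquare is multiplied by `-1`. -/
theorem exists_sqrt (h2 : (2 : k) ≠ 0) [IsAlgClosed k'] : ∃ (c : k) (s : k'), c ≠ 0 ∧
    s ^ 2 = algebraMap k k' c ∧ FiniteField.frobeniusAlgHom k k' s = - s := by
  obtain ⟨c, hc⟩ := FiniteField.exists_nonsquare (F := k) (by
    intro h
    have := CharP.cast_eq_zero k (ringChar k)
    rw [h] at this
    exact h2 (by exact_mod_cast this))
  obtain ⟨s, hs⟩ := IsAlgClosed.exists_pow_nat_eq (algebraMap k k' c) (n := 2) (by norm_num)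
  refine ⟨c, s, ?_, hs, ?_⟩
  · rintro rfl
    exact hc (IsSquare.zero)
  have h3 : FiniteField.frobeniusAlgHom k k' s ^ 2 = s ^ 2 := by
    rw [← map_pow, hs, AlgHom.commutes]
  rcases sq_eq_sq_iff_eq_or_eq_neg.1 h3 with h | h
  · exfalso
    obtain ⟨d, hd⟩ := frob_fixed h
    apply hc
    refine ⟨d, ?_⟩
    apply (algebraMap k k').injective
    rw [← hs, ← hd, map_mul, sq]
  · exact h

/-- Descent of square roots. -/
theorem descent (h2 : (2 : k) ≠ 0) [IsAlgClosed k'] {A : k[X]} {y : k'[X]}
    (h : A.map (algebraMap k k') = y ^ 2) : ∃ (c : k) (Y : k[X]), c ≠ 0 ∧ A = C c * Y ^ 2 := by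
  have h3 : Fr k k' y ^ 2 = y ^ 2 := by rw [← map_pow, ← h, Fr_map]
  rcases sq_eq_sq_iff_eq_or_eq_neg.1 h3 with h4 | h4
  · obtain ⟨Y, rfl⟩ := Fr_fixed h4
    refine ⟨1, Y, one_ne_zero, ?_⟩
    apply Polynomial.map_injective _ (algebraMap k k').injective
    rw [h]
    simp
  · obtain ⟨c, s, hc, hs, hs'⟩ := exists_sqrt (k := k) (k' := k') h2
    have h5 : Fr k k' (C s * y) = C s * y := by
      rw [map_mul, h4, Fr, coe_mapRingHom, map_C]
      have : (FiniteField.frobeniusAlgHom k k').toRingHom s = - s := hs'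
      rw [this]
      simp
    obtain ⟨Y, hY⟩ := Fr_fixed h5
    refine ⟨c⁻¹, Y, inv_ne_zero hc, ?_⟩
    apply Polynomial.map_injective _ (algebraMap k k').injective
    rw [h, Polynomial.map_mul, Polynomial.map_pow, hY, map_C, mul_pow, ← mul_assoc, ← C_pow, hs,
      ← C_mul, ← map_mul, inv_mul_cancel₀ hc]
    simp

end frob

end Run7.h333.TS
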