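import Pool.Agent.Run7.h333.TS.NsqB

/-!
# Nonsquares in the compositum: extensions of odd degree

Project TS (helper875), problem MP_48b749_nt, piece NSQ, by helper333.
-/

set_option autoImplicit false
set_option linter.all false

open Polynomial
open Pool.Agent.N874.PP
open scoped Classical

namespace Run7.h333.TS

section odd

/-- In an extension of odd degree no nonsquare becomes a square. -/
theorem sq_odd {M N : Type} [Field M] [Field N] [Algebra M N] (hn : Odd (Module.finrank M N))
    {β : M} {x : N} (h : algebraMap M N β = x ^ 2) : ∃ y : M, β = y ^ 2 := by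
  by_cases hβ : β = 0
  · exact ⟨0, by simp [hβ]⟩
  have h1 := Algebra.norm_algebraMap (S := N) β
  rw [h, map_pow] at h1
  obtain ⟨m, hm⟩ := hn
  rw [hm] at h1
  refine ⟨Algebra.norm M x / β ^ m, ?_⟩
  rw [div_pow, h1, ← pow_mul, mul_comm m 2, pow_succ, mul_div_cancel_left₀]
  exact pow_ne_zero _ hβ

variable {R : Type} [CommRing R] [IsDomain R] [IsIntegrallyClosed R]

theorem sq_of_odd {H : R[X]} (hm : H.Monic) (hi : Irreducible H) (ho : Odd H.natDegree)
    {A w : R} (hw : w ≠ 0) {u : R[X]} (h : H ∣ C (w ^ 2) * C A - u ^ 2) : ∃ y : R, A = y ^ 2 := by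
  have hi' : Irreducible (H.map (algebraMap R (FractionRing R))) :=
    (hm.irreducible_iff_irreducible_map_fraction_map).1 hi
  haveI : Fact (Irreducible (H.map (algebraMap R (FractionRing R)))) := ⟨hi'⟩
  set Hk := H.map (algebraMap R (FractionRing R)) with hHk
  have hmk : Hk.Monic := hm.map _
  have hfr : Module.finrank (FractionRing R) (AdjoinRoot Hk) = H.natDegree := by
    rw [(AdjoinRoot.powerBasis hmk.ne_zero).finrank, AdjoinRoot.powerBasis_dim, hHk, hm.natDegree_map]
  have h1 : algebraMap (FractionRing R) (AdjoinRoot Hk) (algebraMap R (FractionRing R) A) =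
      (AdjoinRoot.mk Hk (u.map (algebraMap R (FractionRing R))) /
        algebraMap (FractionRing R) (AdjoinRoot Hk) (algebraMap R (FractionRing R) w)) ^ 2 := by
    have hw' : algebraMap (FractionRing R) (AdjoinRoot Hk) (algebraMap R (FractionRing R) w) ≠ 0 := by
      rw [Ne, map_eq_zero, map_eq_zero_iff _ (IsFractionRing.injective R (FractionRing R))]
      exact hw
    have h2 : AdjoinRoot.mk Hk ((C (w ^ 2) * C A - u ^ 2).map (algebraMap R (FractionRing R))) = 0 := by
      rw [AdjoinRoot.mk_eq_zero]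
      exact Polynomial.map_dvd _ h
    simp only [Polynomial.map_sub, Polynomial.map_mul, Polynomial.map_pow, map_C, map_sub, map_mul,
      map_pow, AdjoinRoot.mk_C] at h2
    rw [div_pow, eq_div_iff (pow_ne_zero 2 hw')]
    simp only [AdjoinRoot.algebraMap_eq]
    linear_combination h2
  obtain ⟨y, hy⟩ := sq_odd (by rw [hfr]; exact ho) h1
  obtain ⟨z, hz⟩ := IsIntegrallyClosed.exists_algebraMap_eq_of_isIntegral_pow (R := R) (x := y)
    (n := 2) (by norm_num) (by rw [← hy]; exact isIntegral_algebraMap)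
  refine ⟨z, ?_⟩
  apply IsFractionRing.injective R (FractionRing R)
  rw [hy, map_pow, hz]

theorem gsq_tower {H : R[X]} (hm : H.Monic) (hi : Irreducible H) (ho : Odd H.natDegree)
    {a b : R} (hF : Irreducible (cf a b)) {D : R} (hD : D ≠ 0) {e : R[X]}
    (he : H ∣ e ^ 3 + C (a * D ^ 2) * e + C (b * D ^ 3)) (z : Fin 3 → R) {w : R} (hw : w ≠ 0)
    {u : R[X]} (h : H ∣ C (w ^ 2) * (C (D ^ 2 * z 0) + C (D * z 1) * e + C (z 2) * e ^ 2) - u ^ 2) :
    ∃ (w' : R) (u' : R[X]), w' ≠ 0 ∧
      cf a b ∣ C (w' ^ 2) * (C (z 0) + C (z 1) * X + C (z 2) * X ^ 2) - u' ^ 2 := by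
  have hi' : Irreducible (H.map (algebraMap R (FractionRing R))) :=
    (hm.irreducible_iff_irreducible_map_fraction_map).1 hi
  haveI : Fact (Irreducible (H.map (algebraMap R (FractionRing R)))) := ⟨hi'⟩
  have hF' : Irreducible ((cf a b).map (algebraMap R (FractionRing R))) :=
    ((cf_monic a b).irreducible_iff_irreducible_map_fraction_map).1 hF
  haveI : Fact (Irreducible ((cf a b).map (algebraMap R (FractionRing R)))) := ⟨hF'⟩
  set Hk := H.map (algebraMap R (FractionRing R)) with hHk
  set Fk := (cf a b).map (algebraMap R (FractionRing R)) with hFk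
  have hmk : Hk.Monic := hm.map _
  have hfr : Module.finrank (FractionRing R) (AdjoinRoot Hk) = H.natDegree := by
    rw [(AdjoinRoot.powerBasis hmk.ne_zero).finrank, AdjoinRoot.powerBasis_dim, hHk, hm.natDegree_map]
  have hj : ∀ r : R, r ≠ 0 →
      algebraMap (FractionRing R) (AdjoinRoot Hk) (algebraMap R (FractionRing R) r) ≠ 0 := by
    intro r hr
    rw [Ne, map_eq_zero, map_eq_zero_iff _ (IsFractionRing.injective R (FractionRing R))]
    exact hr
  set δ := algebraMap (FractionRing R) (AdjoinRoot Hk) (algebraMap R (FractionRing R) D) with hδ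
  have hδ0 : δ ≠ 0 := hj D hD
  set τ : AdjoinRoot Hk := AdjoinRoot.mk Hk (e.map (algebraMap R (FractionRing R))) / δ with hτ
  have hτe : AdjoinRoot.mk Hk (e.map (algebraMap R (FractionRing R))) = τ * δ := by
    rw [hτ, div_mul_cancel₀ _ hδ0]
  have hroot : Fk.eval₂ (algebraMap (FractionRing R) (AdjoinRoot Hk)) τ = 0 := by
    have h2 : AdjoinRoot.mk Hk ((e ^ 3 + C (a * D ^ 2) * e + C (b * D ^ 3)).map
        (algebraMap R (FractionRing R))) = 0 := by
      rw [AdjoinRoot.mk_eq_zero]
      exact Polynomial.map_dvd _ he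
    simp only [Polynomial.map_add, Polynomial.map_mul, Polynomial.map_pow, map_C, map_add, map_mul,
      map_pow, AdjoinRoot.mk_C, hτe] at h2
    rw [← AdjoinRoot.algebraMap_eq, ← hδ] at h2
    rw [hFk, cf_map]
    simp only [cf, eval₂_add, eval₂_mul, eval₂_pow, eval₂_X, eval₂_C]
    have h3 : δ ^ 3 * (τ ^ 3 + algebraMap (FractionRing R) (AdjoinRoot Hk)
        (algebraMap R (FractionRing R) a) * τ + algebraMap (FractionRing R) (AdjoinRoot Hk)
        (algebraMap R (FractionRing R) b)) = 0 := by
      linear_combination h2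
    exact (mul_eq_zero.1 h3).resolve_left (pow_ne_zero 3 hδ0)
  let φ : AdjoinRoot Fk →+* AdjoinRoot Hk :=
    AdjoinRoot.lift (algebraMap (FractionRing R) (AdjoinRoot Hk)) τ hroot
  letI : Algebra (AdjoinRoot Fk) (AdjoinRoot Hk) := φ.toAlgebra
  haveI : IsScalarTower (FractionRing R) (AdjoinRoot Fk) (AdjoinRoot Hk) := by
    refine IsScalarTower.of_algebraMap_eq fun x => ?_
    change _ = φ (algebraMap _ _ x)
    simp [φ, AdjoinRoot.algebraMap_eq]
  haveI : Module.Finite (FractionRing R) (AdjoinRoot Hk) := by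
    exact (AdjoinRoot.powerBasis hmk.ne_zero).finite
  have hodd : Odd (Module.finrank (AdjoinRoot Fk) (AdjoinRoot Hk)) := by
    have := Module.finrank_mul_finrank (FractionRing R) (AdjoinRoot Fk) (AdjoinRoot Hk)
    rw [hfr] at this
    rw [← this] at ho
    exact (Nat.odd_mul.1 ho).2
  have hβ : algebraMap (AdjoinRoot Fk) (AdjoinRoot Hk) (AdjoinRoot.mk Fk
      ((C (z 0) + C (z 1) * X + C (z 2) * X ^ 2).map (algebraMap R (FractionRing R)))) =
      (AdjoinRoot.mk Hk (u.map (algebraMap R (FractionRing R))) /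
        (algebraMap (FractionRing R) (AdjoinRoot Hk) (algebraMap R (FractionRing R) w) * δ)) ^ 2 := by
    change φ _ = _
    simp only [φ, AdjoinRoot.lift_mk]
    simp only [Polynomial.map_add, Polynomial.map_mul, Polynomial.map_pow, map_C, map_X,
      eval₂_add, eval₂_mul, eval₂_pow, eval₂_X, eval₂_C]
    have h2 : AdjoinRoot.mk Hk ((C (w ^ 2) * (C (D ^ 2 * z 0) + C (D * z 1) * e + C (z 2) * e ^ 2) -
        u ^ 2).map (algebraMap R (FractionRing R))) = 0 := by
      rw [AdjoinRoot.mk_eq_zero]
      exact Polynomial.map_dvd _ h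
    simp only [Polynomial.map_sub, Polynomial.map_add, Polynomial.map_mul, Polynomial.map_pow, map_C,
      map_add, map_mul, map_sub, map_pow, AdjoinRoot.mk_C, hτe] at h2
    rw [← AdjoinRoot.algebraMap_eq, ← hδ] at h2
    rw [div_pow (AdjoinRoot.mk Hk (u.map (algebraMap R (FractionRing R)))),
      eq_div_iff (pow_ne_zero 2 (mul_ne_zero (hj w hw) hδ0))]
    linear_combination h2
  obtain ⟨y, hy⟩ := sq_odd hodd hβ
  obtain ⟨Y, rfl⟩ := AdjoinRoot.mk_surjective y
  obtain ⟨c, hc⟩ := IsLocalization.integerNormalization_map_to_map (nonZeroDivisors R) Y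
  have hc0 : (c : R) ≠ 0 := nonZeroDivisors.ne_zero c.2
  refine ⟨c, IsLocalization.integerNormalization (nonZeroDivisors R) Y, hc0, ?_⟩
  rw [← map_dvd_map (algebraMap R (FractionRing R)) (IsFractionRing.injective R (FractionRing R))
    (cf_monic a b), ← hFk, ← AdjoinRoot.mk_eq_zero, Polynomial.map_sub, Polynomial.map_mul,
    Polynomial.map_pow, hc, map_sub, map_mul, hy, map_C, map_pow, map_pow]
  have e1 : ((c : R) • Y) = C (algebraMap R (FractionRing R) c) * Y := by
    rw [algebra_compatible_smul (FractionRing R), smul_eq_C_mul]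
  rw [e1]
  simp only [map_mul, map_pow, C_pow]
  ring

end odd

end Run7.h333.TS
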